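import Pool.Agent.R858.BN11

/-!
# MP_54820f_ag, Q1 is false: `M^r_{g,d} ⊆ M^2_{g,d-2r+4}` below Castelnuovo's bound

Let `π(d, r) = ∑_{k ≥ 1} max (0, d - 1 - k (r - 1))` be Castelnuovo's bound for the genus of a
nondegenerate curve of degree `d` in `P^r`. We prove (for complete linear series) Castelnuovo's theorem
and deduce that `π(d, r) < g` implies `M^r_{g,d} ⊆ M^s_{g,d-2(r-s)}` for all `s ≤ r`: the `g^r_d` are
then composed with a covering, and every general point of the curve imposes, together with a second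
point, only one condition on them. For `s = 2` and `r ≥ 3` this contradicts Q1, whenever
`2 r ≤ d ≤ g - 1` and `π(d, r) < g`; in particular for all `d` with `2 r ≤ d ≤ min (3 r - 2, g - 1)`.

Curves are given by their function fields, see `Pool/Agent/Helper395/CS/Defs.lean`.
-/

namespace Pool.Agent.Results.MP_54820f_ag.NetContainment

open Pool.Agent.Helper395.CS hiding genus
open Pool.Agent.Helper395.BC
open Pool.Agent.R858.BN

/-- The curve with function field `K` has a `g^r_d`: there is a line bundle `L` of degree `d` with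
`h⁰(L) ≥ r + 1`. -/
def HasSeries (K : Type) [Field K] [Algebra ℂ K] (r d : ℤ) : Prop :=
  ∃ L : LineBundle K, L.degree = d ∧ r + 1 ≤ Module.finrank ℂ (H0 L)

/-- `M^r_{g,d} ⊆ M^s_{g,e}`: every curve of genus `g` with a `g^r_d` has a `g^s_e`. -/
def Contained (g : ℕ) (r d s e : ℤ) : Prop :=
  ∀ (K : Type) [Field K] [Algebra ℂ K], IsCurve K → genus K = g → HasSeries K r d → HasSeries K s e

/-- `M^r_{g,d}` is not empty. -/
def LocusNonempty (g : ℕ) (r d : ℤ) : Prop :=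
  ∃ (K : Type) (_ : Field K) (_ : Algebra ℂ K), IsCurve K ∧ genus K = g ∧ HasSeries K r d

/-- the Brill–Noether number -/
def rho (g : ℕ) (r d : ℤ) : ℤ := g - (r + 1) * (g - d + r)

/-- Castelnuovo's number `π(d, r) = ∑_{k ≥ 1} max (0, d - 1 - k (r - 1))` (for `r ≥ 2` the summands with
`k > d` vanish) -/
def castelnuovoNumber (d r : ℕ) : ℕ := ∑ k ∈ Finset.range d, (d - 1 - (k + 1) * (r - 1))

/-- The statement to be proved or disproved. -/
def Q1 : Prop := ∃ g₀ : ℕ, ∀ g : ℕ, g₀ ≤ g → ∀ r d e : ℤ, 3 ≤ r → d ≤ g - 1 → e ≤ g - 1 →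
  rho g r d < 0 → rho g 2 e < 0 → e < d - 2 * r + 2 + (r + 3) / 2 → ¬ Contained g r d 2 e

theorem contained {g r s d : ℕ} (hr : 2 ≤ r) (hsr : s ≤ r) (hc : castelnuovoNumber d r < g) :
    Contained g r d s (d - 2 * (r - s)) := by
  intro K _ _ hK hKg hL
  obtain ⟨L, hLd, hLr⟩ := hL
  have hg0 : genus K ≠ 0 := by omega
  obtain ⟨M, hM1, hM2⟩ := composed' hK hg0 (L := L) (r := r) (d := d) hr
    (by change r + 1 ≤ Module.finrank ℂ (H0 L); omega) hLd (by rw [hKg]; exact hc) (r - s)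
  change r + 1 ≤ Module.finrank ℂ (H0 M) + (r - s) at hM2
  exact ⟨M, by rw [hM1, hLd]; omega, by omega⟩

theorem gonal {g r d k : ℕ} (hg : 1 ≤ g) (hk : k * r ≤ d) : Contained g 1 k r d := by
  intro K _ _ hK hKg hL
  obtain ⟨L, hLd, hLr⟩ := hL
  have hg0 : genus K ≠ 0 := by omega
  obtain ⟨M, hM1, hM2⟩ := pencil_mul hK hg0 (A := L) (by omega) r
  obtain ⟨N, hN1, hN2⟩ := exists_add hK hg0 M (d - k * r)
  refine ⟨N, ?_, by omega⟩
  rw [hN1, hM1, hLd]
  push_cast [Nat.cast_sub hk]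
  ring

/-- (1) `M^r_{g,d} ⊆ M^s_{g,d-2(r-s)}` if `r ≥ 2`, `s ≤ r` and `π(d, r) < g`.
(2) If `r ≥ 3`, `2 r ≤ d ≤ g - 1` and `π(d, r) < g`, then `M^r_{g,d}` is not empty, all conditions of Q1
are satisfied by `r`, `d` and `e = d - 2 r + 4`, and `M^r_{g,d} ⊆ M^2_{g,e}`.
(3) The condition `π(d, r) < g` holds if `2 r ≤ d ≤ 3 r - 2` and `d ≤ g - 1`.
(4) `M^r_{g,d}` contains all curves with a `g^1_k` for `k r ≤ d`.
(5) Q1 is false. -/
theorem result :
    (∀ g r d s : ℕ, 2 ≤ r → s ≤ r → castelnuovoNumber d r < g →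
      Contained g r d s (d - 2 * (r - s))) ∧
    (∀ g r d : ℕ, 3 ≤ r → 2 * r ≤ d → d < g → castelnuovoNumber d r < g →
      LocusNonempty g r d ∧ (d : ℤ) ≤ g - 1 ∧ (d - 2 * r + 4 : ℤ) ≤ g - 1 ∧ rho g r d < 0 ∧
      rho g 2 (d - 2 * r + 4) < 0 ∧ (d - 2 * r + 4 : ℤ) < d - 2 * r + 2 + (r + 3) / 2 ∧
      Contained g r d 2 (d - 2 * r + 4)) ∧
    (∀ g r d : ℕ, 2 ≤ r → 2 * r ≤ d → d ≤ 3 * r - 2 → d < g → castelnuovoNumber d r < g) ∧
    (∀ g r d k : ℕ, 1 ≤ g → k * r ≤ d → Contained g 1 k r d) ∧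
    ¬ Q1 := by
  have main : ∀ g r d : ℕ, 3 ≤ r → 2 * r ≤ d → d < g → castelnuovoNumber d r < g →
      LocusNonempty g r d ∧ (d : ℤ) ≤ g - 1 ∧ (d - 2 * r + 4 : ℤ) ≤ g - 1 ∧ rho g r d < 0 ∧
      rho g 2 (d - 2 * r + 4) < 0 ∧ (d - 2 * r + 4 : ℤ) < d - 2 * r + 2 + (r + 3) / 2 ∧
      Contained g r d 2 (d - 2 * r + 4) := by
    intro g r d hr hd hdg hc
    refine ⟨?_, by omega, by omega, ?_, ?_, by omega, ?_⟩
    · obtain ⟨K, i1, i2, hK, hKg, L, hL1, hL2⟩ := exists_hyp_series g r (by omega) d (by omega)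
      exact ⟨K, i1, i2, hK, hKg, L, hL1, by omega⟩
    · exact rho_neg hr hd hdg hc
    · have := rho_neg' (s := 2) hr hd hdg hc le_rfl (by omega)
      push_cast at this
      exact this
    · have := contained (g := g) (r := r) (s := 2) (d := d) (by omega) (by omega) hc
      have h : ((d : ℤ) - 2 * ((r : ℤ) - ((2 : ℕ) : ℤ))) = d - 2 * r + 4 := by push_cast; ring
      rwa [h] at this
  have small : ∀ g r d : ℕ, 2 ≤ r → 2 * r ≤ d → d ≤ 3 * r - 2 → d < g →
      castelnuovoNumber d r < g := fun g r d hr hd hd' hdg => (castel_small hr hd hd').trans hdg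
  refine ⟨fun g r d s hr hs hc => contained hr hs hc, main, small, fun g r d k hg hk => gonal hg hk, ?_⟩
  rintro ⟨g₀, h⟩
  have h7 : 7 ≤ max g₀ 7 := le_max_right _ _
  obtain ⟨-, h1, h2, h3, h4, h5, h6⟩ := main (max g₀ 7) 3 6 (by norm_num) (by norm_num) (by omega)
    (small _ _ _ (by norm_num) (by norm_num) (by norm_num) (by omega))
  exact h (max g₀ 7) (le_max_left _ _) 3 6 _ (by norm_num) h1 h2 h3 h4 h5 h6

end Pool.Agent.Results.MP_54820f_ag.NetContainment
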